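import Mathlib
import Pool.Agent.U376.AK.Fin

set_option autoImplicit false

/-! # Artin's formula, with the correction factor, for almost all terms of the exponential sequences
`b a ^ k + c`

Let `δ(D) = (1 - μ(|D|) ∏_{q ∣ D} 1 / (q² - q - 1)) A` for a squarefree integer `D ≡ 1 mod 4`, where `A` is
Artin's constant, and `δ(D) = A` for the other squarefree integers `D`. Write `P(n, x)` for the number of
primes `p ≤ x` modulo which `n` is a primitive root. Let `a ≥ 2` and let `b`, `c` be nonzero integers, for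
instance `n = 2 ^ k + 1` or `n = b 2 ^ k + 1`. Let `0 < θ < 1` and `ε, η > 0`. There is `X` such that
for all `K`, for all but at most `η K` of the exponents `k ≤ K`:

* `|P(n, x) - δ(n') π(x)| ≤ ε π(x)` for EVERY `x` with `X ≤ x ≤ K ^ θ`, where `n = b a ^ k + c` and `n'` is
  the squarefree part of `n`;
* for every squarefree `D ≡ 1 mod 4`, `D ≠ 1` (with `X` depending on `D`) the same holds for
  `n = D (b a ^ k + c) ^ 2`, whose squarefree part is `D`.

The family is as sparse as `log N`: it has about `log N` members up to `N`; the families of the earlier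
results have at least `N ^ c` members up to `N`.

Proof: the second moment of the number of primes. The correlation of two primes `p`, `q` is a sum of products
of characters along the subgroup generated by `(a, a)` modulo `p` and `q`; it is bounded by `√(p q)` over
a complete period (Jacobi sums). This is nontrivial if the orders of `a` modulo `p` and `q` exceed `√x` by a
power of `log x`. This is true for almost all primes, because by an argument of Erdős the
number `p - 1` has for almost all `p ≤ x` no divisor between `√x (log x) ^ (-C)` and `√x (log x) ^ C` (proved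
here with the theorem of Brun and Titchmarsh and mean values of multiplicative functions).

Libraries: helper430, helper730 (expansion in characters, main term with the correction factor), helper907
(mean values of multiplicative functions), TH915 (theorem of Brun and Titchmarsh), helper771, helper386
(main term), helper171 (bound for the correction factor). -/

namespace Pool.Agent.Results.MP_991e92_nt.ExponentialSequences

open Finset Filter Classical
open Pool.Agent.H730R2.AA (cnt dens)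
open Pool.Agent.H386R2.Artin (artinC)
open Pool.Agent.U376.AK (lim_gen EE_one_lim cnt_sq artinC_pos)

/-- the number of primes `p ≤ x` modulo which `n` is a primitive root -/
noncomputable def P (n : ℤ) (x : ℕ) : ℕ :=
  ((Finset.range (x + 1)).filter (fun p : ℕ => p.Prime ∧ orderOf (n : ZMod p) = p - 1)).card

/-- Artin's constant -/
noncomputable def A : ℝ := ∏' p : Nat.Primes, (1 - 1 / (((p : ℕ) : ℝ) * (((p : ℕ) : ℝ) - 1)))

/-- the conjectural density for integers with squarefree part `D`: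
`(1 - μ(|D|) ∏_{q ∣ D} 1 / (q² - q - 1)) A` if `D ≡ 1 mod 4`, and `A` otherwise -/
noncomputable def δ (D : ℤ) : ℝ :=
  if D % 4 = 1 then
    (1 - ((ArithmeticFunction.moebius D.natAbs : ℤ) : ℝ) *
      ∏ q ∈ D.natAbs.primeFactors, (1 / ((q : ℝ) ^ 2 - (q : ℝ) - 1))) * A
  else A

lemma P_eq (n : ℤ) (x : ℕ) : P n x = cnt n x := rfl

theorem result (a : ℕ) (b c : ℤ) (ha : 2 ≤ a) (hb : b ≠ 0) (hc : c ≠ 0) (θ : ℝ) (hθ : 0 < θ)
    (hθ' : θ < 1) (ε η : ℝ) (hε : 0 < ε) (hη : 0 < η) :
    (∃ X : ℕ, ∀ K : ℕ, (((Finset.Icc 1 K).filter (fun k : ℕ =>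
      ∃ D s : ℤ, Squarefree D ∧ s ≠ 0 ∧ b * (a : ℤ) ^ k + c = D * s ^ 2 ∧
        ∃ x : ℕ, X ≤ x ∧ (x : ℝ) ≤ (K : ℝ) ^ θ ∧
          ε * (Nat.primeCounting x : ℝ) <
            |(P (b * (a : ℤ) ^ k + c) x : ℝ) - δ D * (Nat.primeCounting x : ℝ)|)).card : ℝ) ≤ η * K) ∧
    ∀ D : ℤ, Squarefree D → D % 4 = 1 → D ≠ 1 → ∃ X : ℕ, ∀ K : ℕ,
      (((Finset.Icc 1 K).filter (fun k : ℕ => ∃ x : ℕ, X ≤ x ∧ (x : ℝ) ≤ (K : ℝ) ^ θ ∧
          ε * (Nat.primeCounting x : ℝ) <
            |(P (D * (b * (a : ℤ) ^ k + c) ^ 2) x : ℝ) - δ D * (Nat.primeCounting x : ℝ)|)).card : ℝ) ≤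
        η * K := by
  have hA : A = artinC := rfl
  have hA0 : 0 < A := artinC_pos
  constructor
  · obtain ⟨M, hM⟩ : ∃ M : ℕ, M = ⌈2 * A / ε⌉₊ + 1 := ⟨_, rfl⟩
    have hMr : 2 * A / ε < M := by
      rw [hM]; push_cast
      have := Nat.le_ceil (2 * A / ε)
      linarith
    obtain ⟨XA, hXA⟩ := lim_gen 1 1 a one_ne_zero b c ha hb hc artinC (EE_one_lim 1 one_ne_zero) θ hθ hθ'
      (ε / 2) (by positivity) (η / 2) (by positivity)
    have hD : ∀ D : ℤ, ∃ X : ℕ, D ≠ 0 → ∀ K : ℕ, (((Icc 1 K).filter (fun k => ∃ x : ℕ, X ≤ x ∧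
        (x : ℝ) ≤ (K : ℝ) ^ θ ∧ A / 2 * (Nat.primeCounting x : ℝ) <
          |(cnt (D * (b * (a : ℤ) ^ k + c) ^ 1) x : ℝ) - artinC * (Nat.primeCounting x : ℝ)|)).card : ℝ) ≤
          η / (2 * (2 * M + 1)) * K := by
      intro D
      by_cases h : D = 0
      · exact ⟨0, fun h' => absurd h h'⟩
      · obtain ⟨X, hX⟩ := lim_gen D 1 a one_ne_zero b c ha hb hc artinC (EE_one_lim D h) θ hθ hθ'
          (A / 2) (by positivity) (η / (2 * (2 * M + 1))) (by positivity)
        exact ⟨X, fun _ => hX⟩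
    choose XD hXD using hD
    obtain ⟨X3, hX3⟩ := eventually_atTop.1 (Pool.Agent.N430.AD.pc_top.eventually_gt_atTop (2 / A))
    obtain ⟨S, hS⟩ : ∃ S : Finset ℤ, S = (Icc (-(M : ℤ)) M).filter (fun D => D ≠ 0) := ⟨_, rfl⟩
    refine ⟨max XA (max X3 (S.sup XD)), fun K => ?_⟩
    obtain ⟨E, hE⟩ : ∃ E : ℤ → Finset ℕ, E = fun D => (Icc 1 K).filter (fun k => ∃ x : ℕ, XD D ≤ x ∧
        (x : ℝ) ≤ (K : ℝ) ^ θ ∧ A / 2 * (Nat.primeCounting x : ℝ) <
          |(cnt (D * (b * (a : ℤ) ^ k + c) ^ 1) x : ℝ) - artinC * (Nat.primeCounting x : ℝ)|) := ⟨_, rfl⟩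
    have hsub : (Icc 1 K).filter (fun k : ℕ =>
        ∃ D s : ℤ, Squarefree D ∧ s ≠ 0 ∧ b * (a : ℤ) ^ k + c = D * s ^ 2 ∧
        ∃ x : ℕ, max XA (max X3 (S.sup XD)) ≤ x ∧ (x : ℝ) ≤ (K : ℝ) ^ θ ∧
          ε * (Nat.primeCounting x : ℝ) <
            |(P (b * (a : ℤ) ^ k + c) x : ℝ) - δ D * (Nat.primeCounting x : ℝ)|) ⊆
        ((Icc 1 K).filter (fun k => ∃ x : ℕ, XA ≤ x ∧ (x : ℝ) ≤ (K : ℝ) ^ θ ∧
          ε / 2 * (Nat.primeCounting x : ℝ) < |(cnt (1 * (b * (a : ℤ) ^ k + c) ^ 1) x : ℝ) -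
            artinC * (Nat.primeCounting x : ℝ)|)) ∪ S.biUnion E := by
      intro k hk
      rw [mem_filter] at hk
      obtain ⟨hkK, D, s, hDs, hs0, hn, x, hx1, hx2, hx3⟩ := hk
      have hx1A : XA ≤ x := (le_max_left _ _).trans hx1
      have hx13 : X3 ≤ x := (le_max_left _ _).trans ((le_max_right _ _).trans hx1)
      have hx1S : S.sup XD ≤ x := (le_max_right _ _).trans ((le_max_right _ _).trans hx1)
      have hπ := hX3 x hx13
      obtain ⟨π, hπd⟩ : ∃ π : ℝ, π = (Nat.primeCounting x : ℝ) := ⟨_, rfl⟩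
      rw [← hπd] at hx3 hπ
      have hπ0 : 0 < π := lt_trans (by positivity) hπ
      rw [mem_union]
      by_cases hkA : ε / 2 * π < |(cnt (1 * (b * (a : ℤ) ^ k + c) ^ 1) x : ℝ) - artinC * π|
      · left
        rw [mem_filter]
        exact ⟨hkK, x, hx1A, hx2, by rw [← hπd]; exact hkA⟩
      right
      push Not at hkA
      rw [one_mul, pow_one] at hkA
      rw [P_eq] at hx3
      have hdiff : ε / 2 < |δ D - A| := by
        have h1 := abs_add_le ((cnt (b * (a : ℤ) ^ k + c) x : ℝ) - A * π) ((A - δ D) * π)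
        have h2 : (cnt (b * (a : ℤ) ^ k + c) x : ℝ) - A * π + (A - δ D) * π =
            (cnt (b * (a : ℤ) ^ k + c) x : ℝ) - δ D * π := by ring
        rw [h2, abs_mul, abs_of_pos hπ0, abs_sub_comm A (δ D), hA] at h1
        rw [hA]
        by_contra hcon
        push Not at hcon
        nlinarith
      have hD4 : D % 4 = 1 := by
        by_contra h
        unfold δ at hdiff
        rw [if_neg h, sub_self, abs_zero] at hdiff
        linarith
      have hclose := Pool.Agent.W171.EP.dl_close D hDs hD4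
      have hδ : δ D = Pool.Agent.W171.EP.dl D := by
        unfold δ Pool.Agent.W171.EP.dl
        rw [if_pos hD4]
        rfl
      have hartA : Pool.Agent.W171.EP.artA = A := rfl
      rw [← hδ, hartA, abs_of_pos hA0] at hclose
      have hD0 : D ≠ 0 := hDs.ne_zero
      have hDr : (0 : ℝ) < |(D : ℝ)| := by
        rw [abs_pos]; exact_mod_cast hD0
      have hDM : |(D : ℝ)| < M := by
        have h1 : ε / 2 < A / |(D : ℝ)| := lt_of_lt_of_le hdiff hclose
        rw [lt_div_iff₀ hDr] at h1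
        have h2 : |(D : ℝ)| < 2 * A / ε := by
          rw [lt_div_iff₀ hε]; linarith
        linarith
      have hDM' : |D| < (M : ℤ) := by exact_mod_cast hDM
      rw [abs_lt] at hDM'
      have hDS : D ∈ S := by
        rw [hS, mem_filter, mem_Icc]
        exact ⟨⟨by omega, by omega⟩, hD0⟩
      rw [mem_biUnion]
      refine ⟨D, hDS, ?_⟩
      rw [hE]
      beta_reduce
      rw [mem_filter]
      refine ⟨hkK, x, (Finset.le_sup (f := XD) hDS).trans hx1S, hx2, ?_⟩
      rw [← hπd]
      have hsq : D * (b * (a : ℤ) ^ k + c) ^ 1 = (D * s) ^ 2 := by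
        rw [pow_one, hn]; ring
      rw [hsq]
      have hc1 : (cnt ((D * s) ^ 2) x : ℝ) ≤ 1 := by exact_mod_cast cnt_sq (D * s) x
      have h3 : 1 < A / 2 * π := by
        rw [div_lt_iff₀ hA0] at hπ
        linarith
      rw [← hA, abs_sub_comm]
      refine lt_of_lt_of_le ?_ (le_abs_self _)
      linarith
    have hSc : (S.card : ℝ) ≤ 2 * M + 1 := by
      have : S.card ≤ 2 * M + 1 := by
        rw [hS]
        refine (card_filter_le _ _).trans ?_
        rw [Int.card_Icc]
        omega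
      exact_mod_cast this
    calc _ ≤ ((((Icc 1 K).filter (fun k => ∃ x : ℕ, XA ≤ x ∧ (x : ℝ) ≤ (K : ℝ) ^ θ ∧
          ε / 2 * (Nat.primeCounting x : ℝ) < |(cnt (1 * (b * (a : ℤ) ^ k + c) ^ 1) x : ℝ) -
            artinC * (Nat.primeCounting x : ℝ)|)).card + ∑ D ∈ S, (E D).card : ℕ) : ℝ) := by
          exact_mod_cast (card_le_card hsub).trans ((card_union_le _ _).trans
            (Nat.add_le_add_left card_biUnion_le _))
      _ ≤ η / 2 * K + ∑ D ∈ S, η / (2 * (2 * M + 1)) * K := by
          push_cast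
          refine add_le_add (hXA K) (sum_le_sum fun D hDS => ?_)
          rw [hS, mem_filter] at hDS
          rw [hE]
          exact hXD D hDS.2 K
      _ = η / 2 * K + S.card * (η / (2 * (2 * M + 1)) * K) := by rw [sum_const, nsmul_eq_mul]
      _ ≤ η / 2 * K + (2 * M + 1) * (η / (2 * (2 * M + 1)) * K) := by gcongr
      _ = η * K := by field_simp; ring
  · intro D hD hD4 hD1
    have hlim := Pool.Agent.N430.PS.EE_lim D hD hD4 hD1
    obtain ⟨X, hX⟩ := lim_gen D 2 a two_ne_zero b c ha hb hc (Pool.Agent.H730R2.AA.dens D) hlim θ hθ hθ' ε hε η hη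
    refine ⟨X, fun K => ?_⟩
    have hδ : δ D = Pool.Agent.H730R2.AA.dens D := by
      unfold δ Pool.Agent.H730R2.AA.dens
      rw [if_pos hD4]
      rfl
    rw [hδ]
    exact hX K

end Pool.Agent.Results.MP_991e92_nt.ExponentialSequences
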