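import Mathlib
import Pool.Agent.U53.MS.Final

set_option autoImplicit false

/-!
# Artin's primitive roots are irregularly distributed on the scale `(log x)^(1 + η)`

Let `N ≥ 2` be squarefree, and consider all integers `n = d m²`, where `d ≠ 1` divides `N` and `d ≡ 1 mod 4`
(so that `d` is the squarefree part of `n`). Let `P n x` be the number of the primes `p ≤ x` with primitive
root `n`.

The primes of some windows `(a, a + (log X)^(1 + η)]` are almost all `≡ 1 mod N`, although there are at least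
`c (log X)^η` of them, where `c` depends only on `N`; for these primes all the integers `n` above are quadratic
residues. So Artin's asymptotic formula fails in these windows, and the error term of the formula is at least
a power of `log x`, whatever the density: for `A > 0` the difference `P n x - A π(x)` is at least `(log x)^η` in
absolute value for at least `X^(49/50)` of the integers `x ∈ (X, 4X]`. The method is that of Maier and Shiu.
-/

namespace Pool.Agent.Results.MP_991e92_nt.IrregularPrimitiveRoots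

open Finset Classical

/-- the number of the primes `p ≤ x` with primitive root `n` -/
noncomputable def P (n : ℤ) (x : ℕ) : ℕ :=
  #{p ∈ range (x + 1) | p.Prime ∧ orderOf (n : ZMod p) = p - 1}

/-- the integers `n = d m²`, where `m ≠ 0`, `d ≠ 1` is a divisor of `N`, `d ≡ 1 mod 4` -/
def Fam (N : ℕ) (n : ℤ) : Prop := ∃ d m : ℤ, n = d * m ^ 2 ∧ m ≠ 0 ∧ d ∣ (N : ℤ) ∧ d % 4 = 1 ∧ d ≠ 1

/-- the number of the primes `p` with `a < p ≤ a + Y` and `R p` -/
noncomputable def cnt (R : ℕ → Prop) (a Y : ℕ) : ℕ := #{p ∈ Ioc a (a + Y) | p.Prime ∧ R p}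

/-- irregularities of the distribution of the primes with a given primitive root -/
theorem result (N : ℕ) (hN : 2 ≤ N) (hsq : Squarefree N) :
    (∀ A₀ : ℝ, 0 < A₀ → ∃ η : ℝ, 0 < η ∧ ∃ X₀ : ℝ, ∀ X : ℝ, X₀ ≤ X → ∀ A : ℝ, A₀ ≤ A → ∀ n : ℤ, Fam N n →
      X ^ (49 / 50 : ℝ) ≤ (((Icc 1 ⌊4 * X⌋₊).filter (fun x : ℕ => X < x ∧
        Real.log x ^ η ≤ |(P n x : ℝ) - A * Nat.primeCounting x|)).card : ℝ)) ∧
    (∀ κ : ℝ, 0 < κ → ∃ η : ℝ, 0 < η ∧ ∃ X₀ : ℝ, ∀ X : ℝ, X₀ ≤ X → ∀ G : ℕ → ℝ,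
      (∀ m : ℕ, X < m → ((m + 1 : ℕ) : ℝ) ≤ 4 * X → κ / Real.log (m + 1 : ℕ) ≤ G (m + 1) - G m) →
      ∀ n : ℤ, Fam N n →
      X ^ (49 / 50 : ℝ) ≤ (((Icc 1 ⌊4 * X⌋₊).filter (fun x : ℕ => X < x ∧
        Real.log x ^ η ≤ |(P n x : ℝ) - G x|)).card : ℝ)) ∧
    (∃ c : ℝ, 0 < c ∧ ∀ ε : ℝ, 0 < ε → ∃ η : ℝ, 0 < η ∧ η ≤ 1 ∧ ∃ X₀ : ℝ, ∀ X : ℝ, X₀ ≤ X →
      ∀ Y : ℕ, Y = ⌊Real.log X ^ (1 + η)⌋₊ →
        X ^ (49 / 50 : ℝ) ≤ (((Icc 1 ⌊4 * X⌋₊).filter (fun a : ℕ => X < a ∧ ((a + Y : ℕ) : ℝ) ≤ 4 * X ∧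
          c * (Y / Real.log X) ≤ cnt (fun _ => True) a Y ∧
          (cnt (fun p => ¬ p ≡ 1 [MOD N]) a Y : ℝ) ≤ ε * cnt (fun _ => True) a Y ∧
          ∀ n : ℤ, Fam N n → (cnt (fun p => orderOf (n : ZMod p) = p - 1) a Y : ℝ) ≤
            ε * cnt (fun _ => True) a Y)).card : ℝ) ∧
        X ^ (49 / 50 : ℝ) ≤ (((Icc 1 ⌊4 * X⌋₊).filter (fun a : ℕ => X < a ∧ ((a + Y : ℕ) : ℝ) ≤ 4 * X ∧
          (cnt (fun p => ¬ p ≡ 1 [MOD N]) a Y : ℝ) ≤ ε * (Y / Real.log X) ∧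
          ∀ n : ℤ, Fam N n → (cnt (fun p => orderOf (n : ZMod p) = p - 1) a Y : ℝ) ≤
            ε * (Y / Real.log X))).card : ℝ)) := by
  have hF : ∀ n : ℤ, Fam N n → Pool.Agent.U53.MS.Fam N n := by
    rintro n ⟨d, m, h1, -, h2, h3, h4⟩
    exact ⟨d, m, h1, h2, h3, h4⟩
  have hP : ∀ n : ℤ, ∀ x : ℕ, P n x = Pool.Agent.U53.MS.P n x := fun n x => rfl
  refine ⟨?_, ?_, ?_⟩
  · intro A₀ hA₀
    obtain ⟨η, hη, X₀, h⟩ := Pool.Agent.U53.MS.comp_pi N hN hsq A₀ hA₀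
    exact ⟨η, hη, X₀, fun X hX A hA n hn => h X hX A hA n (hF n hn)⟩
  · intro κ hκ
    obtain ⟨η, hη, X₀, h⟩ := Pool.Agent.U53.MS.comp_G N hN hsq κ hκ
    exact ⟨η, hη, X₀, fun X hX G hG n hn => h X hX G hG n (hF n hn)⟩
  · obtain ⟨c, hc, h⟩ := Pool.Agent.U53.MS.win N hN hsq
    refine ⟨c, hc, fun ε hε => ?_⟩
    obtain ⟨η, hη, hη1, X₀, h⟩ := h ε hε
    obtain ⟨X₁, hX₁⟩ := Filter.eventually_atTop.1 Pool.Agent.U53.MS.ev_half
    refine ⟨η, hη, hη1, max (max X₀ X₁) 1, fun X hX Y hY => ?_⟩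
    have hX0 : X₀ ≤ X := ((le_max_left _ _).trans (le_max_left _ _)).trans hX
    have hX1 : X₁ ≤ X := ((le_max_right _ _).trans (le_max_left _ _)).trans hX
    have hX2 : 1 ≤ X := (le_max_right _ _).trans hX
    have hhalf := hX₁ X hX1
    have h0 : 0 < X ^ (49 / 50 : ℝ) := Real.rpow_pos_of_pos (by linarith) _
    have hle : X ^ (49 / 50 : ℝ) ≤ X ^ (99 / 100 : ℝ) := by linarith
    obtain ⟨hA, hB⟩ := h X hX0
    rw [← hY] at hA hB
    have hfl : ⌊3 * X⌋₊ ≤ ⌊4 * X⌋₊ := Nat.floor_le_floor (by linarith)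
    have hT : ∀ a : ℕ, cnt (fun _ => True) a Y = #{p ∈ Ioc a (a + Y) | p.Prime} := by
      intro a
      unfold cnt
      congr 1
      ext p
      simp
    have hbad : ∀ a : ℕ, cnt (fun p => ¬ p ≡ 1 [MOD N]) a Y =
        #{p ∈ Ioc a (a + Y) | p.Prime ∧ ¬ Pool.Agent.U53.MS.Gd N p} := fun a => by
      unfold cnt Pool.Agent.U53.MS.Gd
      congr!
    have hcmp : ∀ a : ℕ, ∀ n : ℤ, Fam N n → cnt (fun p => orderOf (n : ZMod p) = p - 1) a Y ≤
        #{p ∈ Ioc a (a + Y) | p.Prime ∧ ¬ Pool.Agent.U53.MS.Gd N p} := by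
      intro a n hn
      have h1 := Pool.Agent.U53.MS.P_le N hsq n (hF n hn) a Y
      have h2 := Pool.Agent.U53.MS.cnt_add (fun p : ℕ => p.Prime ∧ orderOf (n : ZMod p) = p - 1) a Y
      have h3 : Pool.Agent.U53.MS.P n (a + Y) = Pool.Agent.U53.MS.P n a +
          cnt (fun p => orderOf (n : ZMod p) = p - 1) a Y := by
        unfold Pool.Agent.U53.MS.P cnt
        convert h2
      rw [h3] at h1
      push_cast at h1
      have h4 := sub_nonneg.2 h1
      have h5 : (cnt (fun p => orderOf (n : ZMod p) = p - 1) a Y : ℝ) ≤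
          (((Ioc a (a + Y)).filter (fun p => p.Prime ∧ ¬ Pool.Agent.U53.MS.Gd N p)).card : ℝ) := by
        linarith
      have h6 : cnt (fun p => orderOf (n : ZMod p) = p - 1) a Y ≤
          ((Ioc a (a + Y)).filter (fun p => p.Prime ∧ ¬ Pool.Agent.U53.MS.Gd N p)).card := by
        exact_mod_cast h5
      convert h6
    refine ⟨hle.trans (hB.trans ?_), hle.trans (hA.trans ?_)⟩
    · norm_cast
      apply card_le_card
      intro a ha
      rw [mem_filter, mem_Icc] at ha ⊢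
      obtain ⟨⟨k0, k0'⟩, k1, k2, k3, k4⟩ := ha
      have k5 : (cnt (fun p => ¬ p ≡ 1 [MOD N]) a Y : ℝ) ≤ ε * cnt (fun _ => True) a Y := by
        rw [hT, hbad]
        convert k4
      refine ⟨⟨k0, k0'.trans hfl⟩, k1, by exact_mod_cast k2, ?_, k5, fun n hn => ?_⟩
      · rw [hT]
        convert k3
      · refine le_trans ?_ k5
        rw [hbad]
        exact_mod_cast hcmp a n hn
    · norm_cast
      apply card_le_card
      intro a ha
      rw [mem_filter, mem_Icc] at ha ⊢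
      obtain ⟨⟨k0, k0'⟩, k1, k2, k4⟩ := ha
      have k5 : (cnt (fun p => ¬ p ≡ 1 [MOD N]) a Y : ℝ) ≤ ε * (Y / Real.log X) := by
        rw [hbad]
        convert k4
      refine ⟨⟨k0, k0'.trans hfl⟩, k1, by exact_mod_cast k2, k5, fun n hn => ?_⟩
      refine le_trans ?_ k5
      rw [hbad]
      exact_mod_cast hcmp a n hn

end Pool.Agent.Results.MP_991e92_nt.IrregularPrimitiveRoots
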