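import Mathlib
import Pool.Agent.U376.AG.PrimeW
import Pool.Agent.U376.AG.FinG

set_option autoImplicit false

/-! # Artin's formula, with the correction factor, for almost all Mersenne numbers

Let `δ(D) = (1 - μ(|D|) ∏_{q ∣ D} 1 / (q² - q - 1)) A` for a squarefree integer `D ≡ 1 mod 4`, where `A` is
Artin's constant, and `δ(D) = A` for the other squarefree integers `D`. Write `P(n, x)` for the number of
primes `p ≤ x` modulo which `n` is a primitive root. Let `a ≥ 2` and let `b`, `c` be nonzero integers, for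
instance `n = 2 ^ ℓ - 1`. Let `0 < θ < 1 / 2` and `ε, η > 0`. There is `X` such that for all `K`, for all but
at most `η π(K)` of the PRIME exponents `ℓ ≤ K`:

* `|P(n, x) - δ(n') π(x)| ≤ ε π(x)` for EVERY `x` with `X ≤ x ≤ K ^ θ`, where `n = b a ^ ℓ + c` and `n'` is
  the squarefree part of `n`;
* for every squarefree `D ≡ 1 mod 4`, `D ≠ 1` (with `X` depending on `D`) the same holds for
  `n = D (b a ^ ℓ + c) ^ 2`, whose squarefree part is `D`.

The family has about `log N / log log N` members up to `N`.

Proof: the second moment over the prime exponents. The correlation of two primes `p`, `q` is a periodic function of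
the exponent with the period `(p - 1) (q - 1)`, which can be larger than `K ^ (1 - ρ)`. So the prime exponents are needed
in all the classes modulo almost all these periods: this is the theorem of Barban, Davenport and Halberstam
(library: helper343), and a modulus `M` occurs for at most `τ(M)` pairs. The sum of the correlation over the reduced
residues modulo the period is a sum of Jacobi sums, by Moebius inversion. It is small if the orders of `a` modulo
`p` and `q` exceed `√x` by a power of `log x`. This is true for almost all primes, because by an argument of Erdős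
the number `p - 1` has for almost all `p ≤ x` no divisor between `√x (log x) ^ (-C)` and `√x (log x) ^ C`.

My earlier result `ExponentialSequences` treats the average over all exponents `k ≤ K`, in which the primes have
density zero. -/

namespace Pool.Agent.Results.MP_991e92_nt.MersenneNumbers

open Finset
open Pool.Agent.H730R2.AA (cnt)
open Pool.Agent.H386R2.Artin (artinC)
open Pool.Agent.U376.AG (Hyp final_fam mainW dA)

/-- the number of primes `p ≤ x` modulo which `n` is a primitive root -/
noncomputable def P (n : ℤ) (x : ℕ) : ℕ :=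
  ((Finset.range (x + 1)).filter (fun p : ℕ => p.Prime ∧ orderOf (n : ZMod p) = p - 1)).card

/-- Artin's constant -/
noncomputable def A : ℝ := ∏' p : Nat.Primes, (1 - 1 / (((p : ℕ) : ℝ) * (((p : ℕ) : ℝ) - 1)))

/-- the conjectural density for integers with squarefree part `D`:
`(1 - μ(|D|) ∏_{q ∣ D} 1 / (q² - q - 1)) A` if `D ≡ 1 mod 4`, and `A` otherwise -/
noncomputable def δ (D : ℤ) : ℝ :=
  if D % 4 = 1 then
    (1 - ((ArithmeticFunction.moebius D.natAbs : ℤ) : ℝ) *
      ∏ q ∈ D.natAbs.primeFactors, (1 / ((q : ℝ) ^ 2 - (q : ℝ) - 1))) * A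
  else A

/-- the primes `ℓ ≤ K` -/
def primesTo (K : ℕ) : Finset ℕ := (Finset.Icc 1 K).filter Nat.Prime

open Classical in
theorem result (a : ℕ) (b c : ℤ) (ha : 2 ≤ a) (hb : b ≠ 0) (hc : c ≠ 0) (θ : ℝ) (hθ : 0 < θ)
    (hθ' : θ < 1 / 2) (ε η : ℝ) (hε : 0 < ε) (hη : 0 < η) :
    (∃ X : ℕ, ∀ K : ℕ, (((primesTo K).filter (fun l : ℕ =>
      ∃ D s : ℤ, Squarefree D ∧ s ≠ 0 ∧ b * (a : ℤ) ^ l + c = D * s ^ 2 ∧
        ∃ x : ℕ, X ≤ x ∧ (x : ℝ) ≤ (K : ℝ) ^ θ ∧
          ε * (Nat.primeCounting x : ℝ) <
            |(P (b * (a : ℤ) ^ l + c) x : ℝ) - δ D * (Nat.primeCounting x : ℝ)|)).card : ℝ) ≤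
      η * (primesTo K).card) ∧
    ∀ D : ℤ, Squarefree D → D % 4 = 1 → D ≠ 1 → ∃ X : ℕ, ∀ K : ℕ,
      (((primesTo K).filter (fun l : ℕ => ∃ x : ℕ, X ≤ x ∧ (x : ℝ) ≤ (K : ℝ) ^ θ ∧
          ε * (Nat.primeCounting x : ℝ) <
            |(P (D * (b * (a : ℤ) ^ l + c) ^ 2) x : ℝ) - δ D * (Nat.primeCounting x : ℝ)|)).card : ℝ) ≤
        η * (primesTo K).card := by
  have hH : Hyp a b c Pool.Agent.U376.AK.PY (fun K => ((Pool.Agent.U376.AK.PY K).card : ℝ)) (fun K => (K : ℝ) ^ θ) :=
    fun ε' hε' η' hη' => mainW a b c ha hb hc θ hθ hθ' ε' hε' η' hη'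
  exact final_fam hH (fun K => Nat.cast_nonneg _) ε η hε hη

end Pool.Agent.Results.MP_991e92_nt.MersenneNumbers
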