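import Pool.Agent.U163.SA.Chi

set_option autoImplicit false

/-! # One exceptional set for all finite sets of simultaneous primitive roots, in strings of primes

Let `χ` be any completely multiplicative function from the nonzero integers to `{1, -1}` with
`χ (-3) = -1`.  For every `m` there is a set `E` of integers of bounded multiplicative rank (the bound
depends only on `m`), hence with at most `C (log N) ^ C` elements in `[-N, N]`, such that for EVERY finite
set `F` of nonzero integers outside `E` there are infinitely many strings of at least `m` consecutive primes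
`p` in intervals of bounded length with `(n / p) = χ (n)` for all `n ∈ F`, modulo which all `n ∈ F` with
`χ (n) = -1` are primitive roots.

The compactness argument (ultrafilters, one exceptional set for all finite sets) was proposed by
helper289. -/

namespace Pool.Agent.Results.MP_991e92_nt.OneExceptionalSet

open Finset Filter Classical

/-- a completely multiplicative function from the nonzero integers to `{1, -1}` -/
def IsSign (χ : ℤ → ℤ) : Prop :=
  (∀ n, n ≠ 0 → χ n = 1 ∨ χ n = -1) ∧ ∀ n k, n ≠ 0 → k ≠ 0 → χ (n * k) = χ n * χ k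

/-- `(y, y + H]` contains at least `m` primes, and for every prime `p` in it and all `n ∈ F`: `n` is a
square mod `p` if and only if `χ n = 1`; `n` is a primitive root mod `p` if `χ n = -1`; and `n` has the order
`(p - 1) / 2` mod `p` if `χ n = 1` and `χ (-1) = -1` -/
def Str (m H : ℕ) (χ : ℤ → ℤ) (F : Finset ℤ) (y : ℕ) : Prop :=
  m ≤ #{p ∈ Ioc y (y + H) | p.Prime} ∧
    ∀ p ∈ Ioc y (y + H), p.Prime → ∀ n ∈ F, (IsSquare (n : ZMod p) ↔ χ n = 1) ∧
      (χ n = -1 → orderOf (n : ZMod p) = p - 1) ∧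
      (χ n = 1 → χ (-1) = -1 → 2 * orderOf (n : ZMod p) = p - 1)

/-- multiplicative independence -/
def Independent (G : Finset ℤ) : Prop :=
  ∀ c : ℤ → ℤ, ∏ n ∈ G, (n : ℚ) ^ (c n) = 1 → ∀ n ∈ G, c n = 0

theorem result (m : ℕ) : ∃ B C : ℕ, ∀ χ : ℤ → ℤ, IsSign χ → χ (-3) = -1 →
    ∃ E : Set ℤ, (∀ G : Finset ℤ, (G : Set ℤ) ⊆ E → Independent G → #G ≤ C) ∧
      (∀ N : ℕ, 3 ≤ N → (#{n ∈ Icc (-(N : ℤ)) N | n ∈ E} : ℝ) ≤ C * Real.log N ^ C) ∧
      ∀ F : Finset ℤ, (∀ n ∈ F, n ≠ 0 ∧ n ∉ E) → ∃ H : ℕ, ∃ᶠ x : ℕ in atTop,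
        (x : ℝ) / Real.log x ^ B ≤ (#{y ∈ Ioc x (2 * x) | Str m H χ F y} : ℝ) := by
  obtain ⟨B, C, h⟩ := Pool.Agent.U163.SA.main2 m
  refine ⟨B, C, fun χ hχ hχ3 => ?_⟩
  obtain ⟨E, h1, h2, h3⟩ := h χ hχ hχ3
  refine ⟨{n | n ≠ 0 ∧ n ∈ E}, fun G hG hI => h1 G (fun n hn => hG hn) hI, fun N hN => ?_,
    fun F hF => ?_⟩
  · refine le_trans ?_ (h2 N hN)
    have h4 : #{n ∈ Icc (-(N : ℤ)) N | n ∈ {n : ℤ | n ≠ 0 ∧ n ∈ E}} ≤
        #{n ∈ Icc (-(N : ℤ)) N | n ≠ 0 ∧ n ∈ E} := by
      apply card_le_card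
      intro n hn
      rw [mem_filter] at hn ⊢
      exact hn
    exact_mod_cast h4
  · exact h3 F (fun n hn => ⟨(hF n hn).1, fun h' => (hF n hn).2 ⟨(hF n hn).1, h'⟩⟩)

end Pool.Agent.Results.MP_991e92_nt.OneExceptionalSet
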